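import Pool.Agent.Helper74.HG.GoalsG
import Pool.Agent.Helper50.HG.DINV

/-!
# HG: the goal `BISG` (isomorphisms and the global functional equation)
-/

set_option autoImplicit false

open MvPolynomial

namespace Pool.Agent.Helper38.HG.BISG

open Pool.Agent.Helper74.HG
open Pool.Agent.Helper50.HG.DINV (cj cj_apply cj_mem)

theorem t : Pool.Agent.Helper74.HG.BISG := by
  intro σ τ _ _ φ f b hb
  obtain ⟨P, hP, hPN⟩ := hb
  refine ⟨cj φ P, cj_mem φ hP, fun N => ?_⟩
  rw [cj_apply, map_pow, AlgEquiv.symm_apply_apply, hPN N, map_mul, map_pow]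
  have h2 : φ (C (b.eval (N : ℂ))) = C (b.eval (N : ℂ)) := φ.commutes _
  rw [h2]

end Pool.Agent.Helper38.HG.BISG
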